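import Pool.Agent.H556R2.SComplete

/-!
# `P = ZPP` with and without a fixed exponent, for oracles

The set of oracles relative to which `P = ZPP`, but for no `c` all languages of `ZPTIME(n)` can be
decided in time `O(n ^ c)`, is `Π⁰₄`-complete, and the set of oracles relative to which some `c`
works is `Σ⁰₄`-complete. The reduction is the one of the starting files `Pool.Agent.H556R2`.
-/

set_option autoImplicit false

namespace Pool.Agent.Results.MP_34c247_lc.NonuniformCollapse

open H556R2 TopologicalSpace Classical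

/-- Every `Σ⁰₄` subset of a zero-dimensional second countable space is a continuous preimage
of `S`. -/
def Sigma04Hard (S : Set Oracle) : Prop :=
  ∀ (X : Type) [TopologicalSpace X] [SecondCountableTopology X],
    IsTopologicalBasis {s : Set X | IsClopen s} → ∀ D : Set X, IsSigma04 D →
      ∃ f : X → Oracle, Continuous f ∧ f ⁻¹' S = D

/-- `S` is `Π⁰₄` and every `Π⁰₄` subset of a zero-dimensional second countable space is a
continuous preimage of `S` (`Π⁰₄` sets are the complements of `Σ⁰₄` sets). -/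
def Pi04Complete (S : Set Oracle) : Prop :=
  IsSigma04 Sᶜ ∧ ∀ (X : Type) [TopologicalSpace X] [SecondCountableTopology X],
    IsTopologicalBasis {s : Set X | IsClopen s} → ∀ D : Set X, IsSigma04 Dᶜ →
      ∃ f : X → Oracle, Continuous f ∧ f ⁻¹' S = D

/-- Relative to `A`: `P = RP = BPP = NP ∩ coNP ≠ NP`. -/
def Collapse (A : Oracle) : Prop :=
  ClassP A = ClassRP A ∧ ClassP A = ClassBPP A ∧ ClassP A = ClassNP A ∩ ClassCoNP A ∧
    ClassP A ≠ ClassNP A

/-- Relative to `A`, for some `c` all languages of `ZPTIME(n)` are decided in time `O(n ^ c)`. -/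
def FixedExponent (A : Oracle) : Prop := ∃ c, ClassZPTIME1 A ⊆ ClassDTIME c A

/-- Relative to `A`, for some `c` all languages of `NTIME(n) ∩ coNTIME(n)` are decided in time
`O(n ^ c)`. -/
def FixedExponentNP (A : Oracle) : Prop :=
  ∃ c, ClassNTIME1 A ∩ ClassCoNTIME1 A ⊆ ClassDTIME c A

theorem collapse_OS (α : ℕ → ℕ → ℕ → Option ℕ) : Collapse (OS α) := by
  refine ⟨?_, ?_, ?_, ?_⟩
  · exact Set.Subset.antisymm (classP_subset_classRP _) (OS_RP _)
  · exact Set.Subset.antisymm (classP_subset_classBPP _) (OS_BPP _)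
  · exact Set.Subset.antisymm (classP_subset_npc _) (OS_npc _)
  · intro h
    apply OS_NP_not_RP α
    rw [← h]
    exact classP_subset_classRP _

theorem P_eq_ZPP_OS (α : ℕ → ℕ → ℕ → Option ℕ) : ClassP (OS α) = ClassZPP (OS α) :=
  Set.Subset.antisymm (classP_subset_ZPP _) fun _ hL => OS_RP _ hL.1

/-- Hardness of everything between the two conditions. -/
theorem hard (S : Set Oracle) (h1 : {A | Collapse A ∧ FixedExponentNP A} ⊆ S)
    (h2 : S ⊆ {A | Collapse A → FixedExponent A}) : Sigma04Hard S := by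
  intro X _ _ hX D hD
  refine sigma04_hard (S := S) ?_ ?_ X hX D hD
  · intro α c0 hα
    refine h1 ⟨collapse_OS α, 2 * c0 + 4, fun L hL => ?_⟩
    obtain ⟨⟨i, i'⟩, hi⟩ := (mem_NTIME1_fam _ _).1 hL
    apply OS_linear hα (e := (.npc, linSM i, linSM i')) (linSM_bd' i i')
    intro x
    exact ⟨decide (x ∈ L), by simp, hi x⟩
  · intro α hα hS
    obtain ⟨c, hc⟩ := h2 hS (collapse_OS α)
    obtain ⟨i, hi⟩ := hα c
    exact OS_level hi hc

theorem zpp_of_collapse {A : Oracle} (h : Collapse A) : ClassP A = ClassZPP A :=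
  Set.Subset.antisymm (classP_subset_ZPP _) fun _ hL => h.1.symm.subset hL.1

theorem closed_gdelta {F : Set Oracle} (hF : IsClosed F) : IsGδ F := by
  let _ : MetricSpace Oracle := metrizableSpaceMetric Oracle
  exact hF.isGδ

theorem gdelta_pi {G : Set Oracle} (hG : IsGδ G) : IsPi03 G := by
  obtain ⟨f, hf, rfl⟩ := isGδ_iff_eq_iInter_nat.1 hG
  unfold IsPi03
  rw [Set.compl_iInter]
  exact isSigma03_iUnion fun n => IsGδ.isSigma03 (closed_gdelta (hf n).isClosed_compl)

theorem sigma04_of_sigma03 {S : Set Oracle} (h : IsSigma03 S) : IsSigma04 S := by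
  obtain ⟨G, hG, rfl⟩ := h
  exact ⟨G, fun i => gdelta_pi (hG i), rfl⟩

theorem sigma04_union {S T : Set Oracle} (hS : IsSigma04 S) (hT : IsSigma04 T) :
    IsSigma04 (S ∪ T) := by
  obtain ⟨G, hG, rfl⟩ := hS
  obtain ⟨H, hH, rfl⟩ := hT
  refine ⟨fun n => if n % 2 = 0 then G (n / 2) else H (n / 2), fun n => ?_, ?_⟩
  · by_cases hn : n % 2 = 0
    · simp only [hn, if_true]
      exact hG _
    · simp only [hn, if_false]
      exact hH _
  · ext x
    simp only [Set.mem_union, Set.mem_iUnion]
    constructor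
    · rintro (⟨i, hi⟩ | ⟨i, hi⟩)
      · refine ⟨2 * i, ?_⟩
        have h1 : 2 * i % 2 = 0 := by omega
        have h2 : 2 * i / 2 = i := by omega
        rw [if_pos h1, h2]
        exact hi
      · refine ⟨2 * i + 1, ?_⟩
        have h1 : ¬ (2 * i + 1) % 2 = 0 := by omega
        have h2 : (2 * i + 1) / 2 = i := by omega
        rw [if_neg h1, h2]
        exact hi
    · rintro ⟨n, hn⟩
      by_cases h : n % 2 = 0
      · rw [if_pos h] at hn
        exact Or.inl ⟨_, hn⟩
      · rw [if_neg h] at hn
        exact Or.inr ⟨_, hn⟩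

theorem fixed_sigma04 : IsSigma04 {A : Oracle | FixedExponent A} := by
  refine ⟨fun c => {A | ClassZPTIME1 A ⊆ ClassDTIME c A}, fun c => sigma_ZPTIME_DTIME c, ?_⟩
  ext A
  simp only [FixedExponent, Set.mem_ofPred_eq, Set.mem_iUnion]

/-- (1) The set of oracles relative to which `P = ZPP` but no exponent works for `ZPTIME(n)` is
`Π⁰₄`-complete; (2) the set of oracles relative to which some exponent works is `Σ⁰₄`-complete;
(3) every set of oracles is `Σ⁰₄`-hard if it lies between the set given by: `P = RP = BPP = NP ∩ coNP ≠ NP`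
and there is a fixed exponent even for `NTIME(n) ∩ coNTIME(n)`; and the set given by: if
`P = RP = BPP = NP ∩ coNP ≠ NP`, then there is a fixed exponent for `ZPTIME(n)`. -/
theorem result :
    Pi04Complete {A | ClassP A = ClassZPP A ∧ ¬ FixedExponent A} ∧
    Sigma04Complete {A : Oracle | FixedExponent A} ∧
    ∀ S : Set Oracle, {A | Collapse A ∧ FixedExponentNP A} ⊆ S →
      S ⊆ {A | Collapse A → FixedExponent A} → Sigma04Hard S := by
  have hNP : ∀ {A : Oracle}, FixedExponentNP A → FixedExponent A := by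
    rintro A ⟨c, hc⟩
    exact ⟨c, fun L hL => hc (classZPTIME1_subset _ hL)⟩
  refine ⟨⟨?_, ?_⟩, ⟨fixed_sigma04, ?_⟩, hard⟩
  · have h0 : {A : Oracle | ClassP A = ClassZPP A ∧ ¬ FixedExponent A}ᶜ =
        {A | ¬ ClassZPP A ⊆ ClassP A} ∪ {A | FixedExponent A} := by
      ext A
      simp only [Set.mem_compl_iff, Set.mem_union, Set.mem_ofPred_eq, not_and, not_not]
      constructor
      · intro h
        by_cases h1 : ClassZPP A ⊆ ClassP A
        · exact Or.inr (h (Set.Subset.antisymm (classP_subset_ZPP A) h1))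
        · exact Or.inl h1
      · rintro (h | h) h1
        · exact absurd h1.symm.subset h
        · exact h
    rw [h0]
    exact sigma04_union (sigma04_of_sigma03 sigma_ZPP_P) fixed_sigma04
  · intro X _ _ hX D hD
    obtain ⟨f, hf, hfD⟩ := hard {A : Oracle | ClassP A = ClassZPP A ∧ ¬ FixedExponent A}ᶜ
      (fun A hA h => h.2 (hNP hA.2))
      (fun A hA h => by
        by_contra h1
        exact hA ⟨zpp_of_collapse h, h1⟩) X hX Dᶜ hD
    refine ⟨f, hf, ?_⟩
    rw [Set.preimage_compl] at hfD
    exact compl_injective hfD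
  · exact hard _ (fun A hA => hNP hA.2) (fun A hA _ => hA)

end Pool.Agent.Results.MP_34c247_lc.NonuniformCollapse
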