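import Pool.Agent.H554R2.Zpp.Main

/-!
# Zero-error randomness with `O(1)` queries cannot be removed in time `k n`

For every `k` we give a promise problem on `2 n` bits which zero-error randomised algorithms solve
with `O(log n)` random bits and a constant number of queries in the worst case (they never err, and
they output no answer with probability at most `1 / 3`), while deterministic branching programs
which are correct after at most `k n` queries need `2 ^ (n / D)` nodes: in time `k n` they need
space `n / D`.  The problem: one of the two halves of the input satisfies all the clauses of a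
formula (random clauses of constant width) and the other violates a constant fraction of them;
which one?

The theorem is `zpp_main` of the starting file `Pool/Agent/H554R2/Zpp/Main.lean` (by the helpers
named there and in the files it imports), which had not been handed in.
-/

set_option autoImplicit false

namespace Pool.Agent.Results.MP_34c247_lc.ZeroErrorConstantQueries

open Pool.Agent.H554R2.Sem Pool.Agent.H554R2.Coin Pool.Agent.H554R2.Cnf

/-- For every `k` there is a constant `D` such that for all `n ≥ D` there are `J ≤ D n` clauses
`T j` of at most `D` literals in `n` variables with the following properties. The input `x` has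
`2 n` bits. It is positive if its first half satisfies all the clauses and its second half violates
at least `J / D` of them, it is negative if its first half violates at least `J / D` of the clauses
and its second half satisfies all of them.

* For every `ω` (a sequence of `2 D` of the numbers `0, ..., J - 1`) there is a deterministic
  program `U ω` with at most `18 D ^ 2` nodes, which makes at most `4 D ^ 2` queries on every input
  and outputs `some true`, `some false` or `none` (no answer).  On positive inputs no `U ω`
  outputs `some false`, on negative inputs no `U ω` outputs `some true`, and on positive and on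
  negative inputs at most one third of the programs output `none`.
* A deterministic program `P` which outputs `true` on the positive inputs and `false` on the
  negative inputs, in each case after at most `k n` queries, has at least `2 ^ (n / D)` nodes. -/
theorem result (k : ℕ) : ∃ D : ℕ, 0 < D ∧ ∀ n ≥ D,
    ∃ (J : ℕ) (T : Fin J → Finset (Fin n × Bool)), 0 < J ∧ J ≤ D * n ∧ (∀ j, (T j).card ≤ D) ∧
      ∃ Yes No : (Fin n ⊕ Fin n → Bool) → Prop,
      (∀ x, Yes x ↔ (∀ j, Sat (T j) fun i => x (Sum.inl i)) ∧
        J ≤ D * Nat.card {j // ¬ Sat (T j) fun i => x (Sum.inr i)}) ∧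
      (∀ x, No x ↔ J ≤ D * Nat.card {j // ¬ Sat (T j) fun i => x (Sum.inl i)} ∧
        ∀ j, Sat (T j) fun i => x (Sum.inr i)) ∧
      (∃ U : (Fin (2 * D) → Fin J) → BP (Fin n ⊕ Fin n) (Option Bool),
        (∀ ω, Fintype.card (U ω).State ≤ 18 * D ^ 2 ∧
          ∀ x, ∃ (l : List (Fin n ⊕ Fin n)) (b : Option Bool), l.length ≤ 4 * D ^ 2 ∧
            (U ω).Comp x l b) ∧
        (∀ x, Yes x → (∀ ω, ¬ ∃ l, (U ω).Comp x l (some false)) ∧
          3 * Nat.card {ω // ∃ l, (U ω).Comp x l none} ≤ J ^ (2 * D)) ∧
        (∀ x, No x → (∀ ω, ¬ ∃ l, (U ω).Comp x l (some true)) ∧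
          3 * Nat.card {ω // ∃ l, (U ω).Comp x l none} ≤ J ^ (2 * D))) ∧
      ∀ P : BP (Fin n ⊕ Fin n) Bool,
        (∀ x, Yes x → ∃ l, P.Comp x l true ∧ l.length ≤ k * n) →
        (∀ x, No x → ∃ l, P.Comp x l false ∧ l.length ≤ k * n) →
        2 ^ (n / D) ≤ Fintype.card P.State := by
  obtain ⟨D, hD, h⟩ := Pool.Agent.H554R2.Zpp.zpp_main k
  refine ⟨D, hD, fun n hn => ?_⟩
  obtain ⟨J, T, h1, h2, h3, h4, h5⟩ := h n hn
  exact ⟨J, T, h1, h2, h3, Pool.Agent.H554R2.Zpp.Yes D T, Pool.Agent.H554R2.Zpp.No D T,
    fun x => Iff.rfl, fun x => Iff.rfl, h4, h5⟩

end Pool.Agent.Results.MP_34c247_lc.ZeroErrorConstantQueries
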